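import Pool.Agent.R614.PT.Core
import Pool.Agent.J4.H30.NF.Dvr

/-!
# Fields with infinitely many discrete valuations
-/

set_option autoImplicit false

namespace Pool.Agent.J4.H99.OV

open IsLocalRing NNReal Polynomial Pool.Agent.W882.Nip3 Pool.Agent.R614.PT Pool.Agent.J4.H30.NF

/-- infinitely many incomparable real valuations which are not tame -/
theorem part1 (K : Type) [Field K] [FirstOrder.Ring.CompatibleRing K]
    (hK : NIPField K ∨ (∃ n, NIPnField n K) ∨ NTP2Field K) {ℓ : ℕ} (hℓ : ℓ.Prime)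
    (κ : Type) [Field κ] (hκ : IsResidue K κ) (F : Type) [Field F] [Algebra F κ]
    [Algebra.IsAlgebraic F κ] (u : ℕ → Valuation F ℝ≥0)
    (hu : Pairwise fun i j => ∃ z, u i z < 1 ∧ 1 < u j z) (hd : ∀ i, ¬ Divisible (u i) ℓ) :
    ((∀ i, SepExtAll (Residue (u i)) ℓ) → ¬ BoundedPart ℓ F κ) ∧
    ((∀ i, SepExt (Residue (u i)) ℓ) → ¬ PrimeToDegrees ℓ F κ) := by
  obtain ⟨N, hN⟩ := few_residue K hK hℓ
  have hinj : ∀ i j : Fin N, i ≠ j → (i : ℕ) ≠ j := fun i j hij h => hij (Fin.ext h)
  refine ⟨fun hr ⟨M, hM⟩ => ?_, fun hr hp => ?_⟩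
  · obtain ⟨i, hi⟩ := few_bounded hℓ (hN κ hκ) hM (fun i : Fin N => u i)
      (fun i j hij => hu (hinj i j hij))
    rcases hi with hi | hi
    · exact hd i hi
    · exact hi (hr i)
  · obtain ⟨i, hi⟩ := few_primeTo hℓ (hN κ hκ) hp (fun i : Fin N => u i)
      (fun i j hij => hu (hinj i j hij))
    rcases hi with hi | hi
    · exact hd i hi
    · exact hi (hr i)

/-- infinitely many incomparable discrete valuation rings -/
theorem part1' (K : Type) [Field K] [FirstOrder.Ring.CompatibleRing K]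
    (hK : NIPField K ∨ (∃ n, NIPnField n K) ∨ NTP2Field K) {ℓ : ℕ} (hℓ : ℓ.Prime)
    (κ : Type) [Field κ] (hκ : IsResidue K κ) (F : Type) [Field F] [Algebra F κ]
    [Algebra.IsAlgebraic F κ] (V : ℕ → ValuationSubring F)
    (hV : ∀ i, IsDiscreteValuationRing (V i))
    (hinc : Pairwise fun i j => ∃ x, (V i).valuation x < 1 ∧ 1 < (V j).valuation x) :
    ((∀ i, SepExtAll (ResidueField (V i)) ℓ) → ¬ BoundedPart ℓ F κ) ∧
    ((∀ i, SepExt (ResidueField (V i)) ℓ) → ¬ PrimeToDegrees ℓ F κ) := by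
  choose v hv using fun i => Pool.Agent.Y562.NN.exists_real (V i) (hV i)
  have hlt : ∀ i x, (V i).valuation x < 1 ↔ v i x < 1 := by
    intro i x
    rw [hv i]
    exact ((v i).isEquiv_valuation_valuationSubring.lt_one_iff_lt_one).symm
  have hgt : ∀ i x, 1 < (V i).valuation x ↔ 1 < v i x := by
    intro i x
    rw [hv i]
    exact ((v i).isEquiv_valuation_valuationSubring.one_lt_iff_one_lt).symm
  have h1 : ∀ W W' : ValuationSubring F, W = W' → SepExtAll (ResidueField W) ℓ →
      SepExtAll (ResidueField W') ℓ := by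
    rintro _ _ rfl h
    exact h
  have h2 : ∀ W W' : ValuationSubring F, W = W' → SepExt (ResidueField W) ℓ →
      SepExt (ResidueField W') ℓ := by
    rintro _ _ rfl h
    exact h
  have hd : ∀ i, ¬ Divisible (v i) ℓ := by
    intro i hi
    have h8 : IsDiscreteValuationRing (v i).valuationSubring := by
      have h9 := hV i
      rw [hv i] at h9
      exact h9
    obtain ⟨a, ha⟩ := Pool.Agent.Y562.NN.value_not_pow (v i) h8 hℓ.two_le
    obtain ⟨c, hc⟩ := hi a
    exact ha c hc
  have h3 := part1 K hK hℓ κ hκ F v (fun i j hij => by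
    obtain ⟨x, hx1, hx2⟩ := hinc hij
    exact ⟨x, (hlt i x).1 hx1, (hgt j x).1 hx2⟩) hd
  exact ⟨fun h => h3.1 fun i => h1 _ _ (hv i) (h i), fun h => h3.2 fun i => h2 _ _ (hv i) (h i)⟩

/-! ### Transfer of extensions -/

theorem sepExtAll_of_bijective {k k' : Type} [Field k] [Field k'] (e : k →+* k')
    (he : Function.Surjective e) {ℓ : ℕ} (h : SepExtAll k' ℓ) : SepExtAll k ℓ := by
  intro R _ f hf
  let e' : k ≃+* k' := RingEquiv.ofBijective e ⟨e.injective, he⟩
  have h1 : (f.comp (e'.symm : k' →+* k)).Finite :=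
    hf.comp (RingHom.Finite.of_surjective _ e'.symm.surjective)
  exact h R _ h1

theorem sepExt_of_bijective {k k' : Type} [Field k] [Field k'] (e : k →+* k')
    (he : Function.Surjective e) {ℓ : ℕ} (h : SepExt k' ℓ) : SepExt k ℓ := by
  obtain ⟨L, _, _, hs, hr⟩ := h
  let e' : k ≃+* k' := RingEquiv.ofBijective e ⟨e.injective, he⟩
  let _ : Algebra k L := ((algebraMap k' L).comp e).toAlgebra
  have hc : RingHom.comp (algebraMap k' L) (e' : k →+* k') =
      RingHom.comp ((RingEquiv.refl L : L ≃+* L) : L →+* L) (algebraMap k L) := rfl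
  refine ⟨L, inferInstance, inferInstance, ?_, ?_⟩
  · let _ : Algebra k k' := e.toAlgebra
    have : IsScalarTower k k' L := IsScalarTower.of_algebraMap_eq' rfl
    have h2 : Algebra.IsSeparable k k' := by
      refine ⟨fun y => ?_⟩
      obtain ⟨z, rfl⟩ := he y
      exact isSeparable_algebraMap z
    exact Algebra.IsSeparable.trans k k' L
  · rw [← hr]
    exact Algebra.finrank_eq_of_equiv_equiv e' (RingEquiv.refl L) hc

/-- fields which can be embedded in the field of real numbers -/
theorem sepExt_two_of_real {k : Type} [Field k] (e : k →+* ℝ) : SepExt k 2 := by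
  have hirr : Irreducible (X ^ 2 + 1 : k[X]) := by
    have hd : (X ^ 2 + 1 : k[X]).natDegree = 2 := by
      compute_degree!
    rw [Polynomial.irreducible_iff_roots_eq_zero_of_degree_le_three (by omega) (by omega)]
    rw [Multiset.eq_zero_iff_forall_notMem]
    intro x hx
    rw [mem_roots', IsRoot.def] at hx
    have h1 : x ^ 2 + 1 = 0 := by simpa using hx.2
    have h2 : (e x) ^ 2 + 1 = 0 := by
      rw [← map_pow, ← map_one e, ← map_add, h1, map_zero]
    nlinarith [sq_nonneg (e x)]
  let _ : Fact (Irreducible (X ^ 2 + 1 : k[X])) := ⟨hirr⟩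
  have hc : CharZero k := by
    refine ⟨fun a b hab => ?_⟩
    have := congrArg e hab
    simpa using this
  have hm : (X ^ 2 + 1 : k[X]).Monic := by
    monicity!
  refine ⟨AdjoinRoot (X ^ 2 + 1 : k[X]), inferInstance, inferInstance, ?_, ?_⟩
  · have : FiniteDimensional k (AdjoinRoot (X ^ 2 + 1 : k[X])) :=
      (AdjoinRoot.powerBasis hirr.ne_zero).finite
    infer_instance
  · rw [(AdjoinRoot.powerBasis hirr.ne_zero).finrank, AdjoinRoot.powerBasis_dim]
    compute_degree!

end Pool.Agent.J4.H99.OV
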