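import Pool.Agent.J4.H99.OV.Functions

/-!
# Power series with a given radius of convergence
-/

set_option autoImplicit false

namespace Pool.Agent.J4.H99.OV

open NNReal ENNReal Topology Pool.Agent.W882.Nip3 Pool.Agent.R614.PT Pool.Agent.J4.H30.NF

/-- The ring of power series over the normed field `𝕜` whose radius of convergence is at least
`r`: the sum of the norms of the coefficients times `ρ ^ n` converges for all real `ρ < r`. -/
def convRing (𝕜 : Type) [NontriviallyNormedField 𝕜] (r : ℝ≥0∞) : Subring (PowerSeries 𝕜) where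
  carrier := {P | ∀ ρ : ℝ≥0, (ρ : ℝ≥0∞) < r → Summable fun n => ‖PowerSeries.coeff n P‖ * (ρ : ℝ) ^ n}
  zero_mem' := by
    intro ρ _
    simp
  one_mem' := by
    intro ρ _
    refine summable_of_ne_finset_zero (s := {0}) ?_
    intro n hn
    rw [PowerSeries.coeff_one, if_neg (by simpa using hn), norm_zero, zero_mul]
  add_mem' := by
    intro P Q hP hQ ρ hρ
    refine Summable.of_nonneg_of_le (fun n => by positivity) (fun n => ?_)
      ((hP ρ hρ).add (hQ ρ hρ))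
    rw [map_add, ← add_mul]
    exact mul_le_mul_of_nonneg_right (norm_add_le _ _) (by positivity)
  neg_mem' := by
    intro P hP ρ hρ
    simpa using hP ρ hρ
  mul_mem' := by
    intro P Q hP hQ ρ hρ
    have h1 := _root_.summable_norm_sum_mul_antidiagonal_of_summable_norm
      (f := fun n => ‖PowerSeries.coeff n P‖ * (ρ : ℝ) ^ n)
      (g := fun n => ‖PowerSeries.coeff n Q‖ * (ρ : ℝ) ^ n) (hP ρ hρ).norm (hQ ρ hρ).norm
    refine Summable.of_nonneg_of_le (fun n => by positivity) (fun n => ?_) h1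
    rw [PowerSeries.coeff_mul]
    refine le_trans ?_ (le_abs_self _)
    calc ‖∑ p ∈ Finset.HasAntidiagonal.antidiagonal n, PowerSeries.coeff p.1 P * PowerSeries.coeff p.2 Q‖ *
          (ρ : ℝ) ^ n ≤ (∑ p ∈ Finset.HasAntidiagonal.antidiagonal n,
            ‖PowerSeries.coeff p.1 P * PowerSeries.coeff p.2 Q‖) * (ρ : ℝ) ^ n :=
          mul_le_mul_of_nonneg_right (norm_sum_le _ _) (by positivity)
      _ = _ := by
          rw [Finset.sum_mul]
          refine Finset.sum_congr rfl fun p hp => ?_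
          rw [norm_mul, ← Finset.HasAntidiagonal.mem_antidiagonal.1 hp, pow_add]
          ring

section

variable {𝕜 : Type} [NontriviallyNormedField 𝕜] {r : ℝ≥0∞}

theorem mem_convRing (P : PowerSeries 𝕜) : P ∈ convRing 𝕜 r ↔
    ∀ ρ : ℝ≥0, (ρ : ℝ≥0∞) < r → Summable fun n => ‖PowerSeries.coeff n P‖ * (ρ : ℝ) ^ n := Iff.rfl

/-- polynomials -/
theorem poly_mem (P : PowerSeries 𝕜) (N : ℕ) (hP : ∀ n, N ≤ n → PowerSeries.coeff n P = 0) :
    P ∈ convRing 𝕜 r := by
  intro ρ _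
  refine summable_of_ne_finset_zero (s := Finset.range N) ?_
  intro n hn
  rw [hP n (by simpa using hn), norm_zero, zero_mul]

theorem X_sub_C_mem (a : 𝕜) : PowerSeries.X - PowerSeries.C a ∈ convRing 𝕜 r := by
  refine poly_mem _ 2 fun n hn => ?_
  rw [map_sub, PowerSeries.coeff_X, if_neg (by omega), PowerSeries.coeff_C, if_neg (by omega),
    sub_zero]

theorem C_mem (a : 𝕜) : PowerSeries.C a ∈ convRing 𝕜 r := by
  refine poly_mem _ 1 fun n hn => ?_
  rw [PowerSeries.coeff_C, if_neg (by omega)]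

/-- the ball -/
def ball (𝕜 : Type) [NontriviallyNormedField 𝕜] (r : ℝ≥0∞) : Set (Fin 1 → 𝕜) :=
  {x | (‖x 0‖₊ : ℝ≥0∞) < r}

theorem summable_norm (P : convRing 𝕜 r) (x : 𝕜) (hx : (‖x‖₊ : ℝ≥0∞) < r) :
    Summable fun n => ‖PowerSeries.coeff n P.1 * x ^ n‖ := by
  have h1 := P.2 ‖x‖₊ hx
  refine h1.congr fun n => ?_
  rw [norm_mul, norm_pow]
  rfl

variable [CompleteSpace 𝕜]

/-- evaluation -/
noncomputable def ev (r : ℝ≥0∞) : convRing 𝕜 r →+* (ball 𝕜 r → 𝕜) where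
  toFun P x := ∑' n, PowerSeries.coeff n P.1 * x.1 0 ^ n
  map_one' := by
    ext x
    rw [tsum_eq_single 0]
    · simp
    · intro n hn
      simp [PowerSeries.coeff_one, hn]
  map_zero' := by
    ext x
    simp
  map_add' P Q := by
    ext x
    rw [Pi.add_apply, ← (summable_norm P _ x.2).of_norm.tsum_add (summable_norm Q _ x.2).of_norm]
    refine tsum_congr fun n => ?_
    change PowerSeries.coeff n (P.1 + Q.1) * _ = _
    rw [map_add, add_mul]
  map_mul' P Q := by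
    ext x
    rw [Pi.mul_apply, tsum_mul_tsum_eq_tsum_sum_antidiagonal_of_summable_norm
      (summable_norm P _ x.2) (summable_norm Q _ x.2)]
    refine tsum_congr fun n => ?_
    change PowerSeries.coeff n (P.1 * Q.1) * _ = _
    rw [PowerSeries.coeff_mul, Finset.sum_mul]
    refine Finset.sum_congr rfl fun p hp => ?_
    rw [← Finset.HasAntidiagonal.mem_antidiagonal.1 hp, pow_add]
    ring

theorem ev_apply (P : convRing 𝕜 r) (x : ball 𝕜 r) :
    ev r P x = ∑' n, PowerSeries.coeff n P.1 * x.1 0 ^ n := rfl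

theorem ev_poly (P : convRing 𝕜 r) (N : ℕ) (hP : ∀ n, N ≤ n → PowerSeries.coeff n P.1 = 0)
    (x : ball 𝕜 r) :
    ev r P x = ∑ n ∈ Finset.range N, PowerSeries.coeff n P.1 * x.1 0 ^ n := by
  rw [ev_apply, tsum_eq_sum]
  intro n hn
  rw [hP n (by simpa using hn), zero_mul]

/-- power series expansions -/
theorem hasFPowerSeries (hr : 0 < r) (P : convRing 𝕜 r) :
    HasFPowerSeriesOnBall (fun x : 𝕜 => ∑' n, PowerSeries.coeff n P.1 * x ^ n)
      (FormalMultilinearSeries.ofScalars 𝕜 fun n => PowerSeries.coeff n P.1) 0 r := by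
  have h1 : r ≤ (FormalMultilinearSeries.ofScalars 𝕜
      fun n => PowerSeries.coeff n P.1).radius := by
    refine ENNReal.le_of_forall_nnreal_lt fun ρ hρ => ?_
    refine FormalMultilinearSeries.le_radius_of_summable_norm _ ?_
    refine (P.2 ρ hρ).congr fun n => ?_
    rw [FormalMultilinearSeries.ofScalars_norm]
  have h2 := ((FormalMultilinearSeries.ofScalars 𝕜
    fun n => PowerSeries.coeff n P.1).hasFPowerSeriesOnBall (hr.trans_le h1)).mono hr h1
  refine h2.congr fun x _ => ?_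
  have h3 := FormalMultilinearSeries.ofScalars_sum_eq (𝕜 := 𝕜) (E := 𝕜)
    (fun n => PowerSeries.coeff n P.1) x
  rw [FormalMultilinearSeries.ofScalarsSum] at h3
  rw [h3]
  rfl

/-- identity theorem -/
theorem eq_zero (hr : 0 < r) (P : convRing 𝕜 r) (a : 𝕜)
    (ha : (‖a‖₊ : ℝ≥0∞) + ‖a‖₊ < r)
    (h0 : (fun x : 𝕜 => ∑' n, PowerSeries.coeff n P.1 * x ^ n) =ᶠ[𝓝 a] 0) : P = 0 := by
  have h1 := hasFPowerSeries hr P
  have ha' : (‖a‖₊ : ℝ≥0∞) < r := lt_of_le_of_lt le_self_add ha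
  have h2 := h1.changeOrigin ha'
  rw [zero_add] at h2
  have h3 := h2.hasFPowerSeriesAt.eq_zero_of_eventually h0
  rw [h3] at h2
  have h4 : (fun x : 𝕜 => ∑' n, PowerSeries.coeff n P.1 * x ^ n) =ᶠ[𝓝 0] 0 := by
    have h5 : Metric.eball a (r - ‖a‖₊) ∈ 𝓝 (0 : 𝕜) := by
      refine Metric.isOpen_eball.mem_nhds ?_
      rw [Metric.mem_eball, edist_comm, edist_zero_right]
      change (‖a‖₊ : ℝ≥0∞) < r - ‖a‖₊
      exact lt_tsub_iff_left.2 ha
    filter_upwards [h5] with y hy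
    have h6 : y - a ∈ Metric.eball (0 : 𝕜) (r - ‖a‖₊) := by
      rw [Metric.mem_eball, edist_zero_right, ← edist_eq_enorm_sub]
      exact hy
    have h7 := h2.hasSum h6
    rw [add_sub_cancel] at h7
    have h8 : HasSum (fun n => (0 : FormalMultilinearSeries 𝕜 𝕜 𝕜) n fun _ : Fin n => y - a)
        (0 : 𝕜) := by
      simp
    exact h7.unique h8
  have h9 := h1.hasFPowerSeriesAt.eq_zero_of_eventually h4
  rw [FormalMultilinearSeries.ofScalars_series_eq_zero] at h9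
  refine Subtype.ext (PowerSeries.ext fun n => ?_)
  have h10 := congrFun h9 n
  simpa using h10

omit [CompleteSpace 𝕜] in
theorem isOpen_ball : IsOpen (ball 𝕜 r) := by
  have h1 : Continuous fun x : Fin 1 → 𝕜 => (‖x 0‖₊ : ℝ≥0∞) :=
    ENNReal.continuous_coe.comp (continuous_nnnorm.comp (continuous_apply 0))
  exact isOpen_lt h1 continuous_const

theorem exists_taylor (hr : 0 < r) (a : 𝕜) (ha : (‖a‖₊ : ℝ≥0∞) + ‖a‖₊ < r)
    (P : convRing 𝕜 r) :
    ∃ p, HasTaylor (ev r P) (fun _ => a) p ∧ (P ≠ 0 → p ≠ 0) := by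
  have ha' : (‖a‖₊ : ℝ≥0∞) < r := lt_of_le_of_lt le_self_add ha
  have h1 := (hasFPowerSeries hr P).changeOrigin ha'
  rw [zero_add] at h1
  have h2 : AnalyticAt 𝕜 (fun x : 𝕜 => ∑' n, PowerSeries.coeff n P.1 * x ^ n) a :=
    h1.hasFPowerSeriesAt.analyticAt
  have h3 : AnalyticAt 𝕜 (fun x : Fin 1 → 𝕜 => ∑' n, PowerSeries.coeff n P.1 * x 0 ^ n)
      (fun _ => a) := by
    have h4 : AnalyticAt 𝕜 (fun x : Fin 1 → 𝕜 => x 0) (fun _ => a) :=
      (ContinuousLinearMap.proj (R := 𝕜) (φ := fun _ : Fin 1 => 𝕜) 0).analyticAt _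
    exact AnalyticAt.comp (g := fun x : 𝕜 => ∑' n, PowerSeries.coeff n P.1 * x ^ n) h2 h4
  obtain ⟨s, hs⟩ := h3
  refine ⟨series s, hasTaylor_analytic (ev r P) _ (fun x => ev_apply P x) _ s hs, ?_⟩
  intro hP hs0
  apply hP
  have h5 := eventually_zero_of_series _ _ s hs hs0
  refine eq_zero hr P a ha ?_
  have h6 : Continuous fun t : 𝕜 => (fun _ => t : Fin 1 → 𝕜) := continuous_pi fun _ => continuous_id
  exact (h6.tendsto a).eventually h5

end

/-- fields of fractions of rings of convergent power series -/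
theorem part4 (K : Type) [Field K] [FirstOrder.Ring.CompatibleRing K]
    (hK : NIPField K ∨ (∃ n, NIPnField n K) ∨ NTP2Field K) {ℓ : ℕ} (hℓ : ℓ.Prime)
    (κ : Type) [Field κ] (hκ : IsResidue K κ) (F : Type) [Field F] [Algebra F κ]
    [Algebra.IsAlgebraic F κ] (𝕜 : Type) [NontriviallyNormedField 𝕜] [CompleteSpace 𝕜]
    (r : ℝ≥0∞) (hr : 0 < r) [Algebra (convRing 𝕜 r) F] [IsFractionRing (convRing 𝕜 r) F] :
    (SepExtAll 𝕜 ℓ → ¬ BoundedPart ℓ F κ) ∧ (SepExt 𝕜 ℓ → ¬ PrimeToDegrees ℓ F κ) := by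
  classical
  let S : Set 𝕜 := {a | (‖a‖₊ : ℝ≥0∞) + ‖a‖₊ < r}
  have hcont : Continuous fun a : 𝕜 => (‖a‖₊ : ℝ≥0∞) + ‖a‖₊ :=
    (ENNReal.continuous_coe.comp continuous_nnnorm).add
      (ENNReal.continuous_coe.comp continuous_nnnorm)
  have hS : S.Infinite := by
    have h1 : S ∈ 𝓝 (0 : 𝕜) := by
      refine (isOpen_lt hcont continuous_const).mem_nhds ?_
      change (‖(0 : 𝕜)‖₊ : ℝ≥0∞) + ‖(0 : 𝕜)‖₊ < r
      simpa using hr
    exact infinite_of_mem_nhds _ h1
  have hmem : ∀ a ∈ S, (fun _ => a : Fin 1 → 𝕜) ∈ interior (ball 𝕜 r) := by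
    intro a ha
    rw [isOpen_ball.interior_eq]
    have ha' : (‖a‖₊ : ℝ≥0∞) + ‖a‖₊ < r := ha
    exact lt_of_le_of_lt le_self_add ha'
  have hR : ∀ a ∈ S, ∀ f ∈ (ev (𝕜 := 𝕜) r).range,
      ∃ p, HasTaylor f (fun _ => a) p ∧ (f ≠ 0 → p ≠ 0) := by
    rintro a ha _ ⟨P, rfl⟩
    obtain ⟨p, h1, h2⟩ := exists_taylor hr a ha P
    refine ⟨p, h1, fun h3 => h2 fun h4 => h3 ?_⟩
    rw [h4, map_zero]
  have hinj : Function.Injective (ev (𝕜 := 𝕜) r) := by
    rw [injective_iff_map_eq_zero]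
    intro P hP
    by_contra h0
    obtain ⟨a, ha⟩ := hS.nonempty
    obtain ⟨p, h1, h2⟩ := exists_taylor hr a ha P
    rw [hP] at h1
    exact h2 h0 (h1.unique (hmem a ha) hasTaylor_zero)
  have hS0 : Nonempty S := by
    obtain ⟨a, ha⟩ := hS.nonempty
    exact ⟨⟨a, ha⟩⟩
  let a₀ : S := Classical.choice hS0
  let c : 𝕜 → S := fun a => if h : a ∈ S then ⟨a, h⟩ else a₀
  have hc : ∀ a ∈ S, c a = a := fun a ha => by
    simp only [c, dif_pos ha]
  let τ' : ∀ a : S, (ev (𝕜 := 𝕜) r).range →+* PowerSeries 𝕜 := fun a =>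
    tau (hmem a a.2) (ev (𝕜 := 𝕜) r).range (hR a a.2)
  let τ : 𝕜 → convRing 𝕜 r →+* PowerSeries 𝕜 := fun a => (τ' (c a)).comp (ev (𝕜 := 𝕜) r).rangeRestrict
  let X : 𝕜 → convRing 𝕜 r := fun a => ⟨_, X_sub_C_mem a⟩
  have hevX : ∀ (a : 𝕜) (x : ball 𝕜 r), ev r (X a) x = x.1 0 - a := by
    intro a x
    rw [ev_poly (X a) 2 (fun n hn => by
      change PowerSeries.coeff n (PowerSeries.X - PowerSeries.C a) = 0
      rw [map_sub, PowerSeries.coeff_X, if_neg (by omega), PowerSeries.coeff_C,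
        if_neg (by omega), sub_zero])]
    have h0 : PowerSeries.coeff 0 (X a).1 = -a := by
      change PowerSeries.coeff 0 (PowerSeries.X - PowerSeries.C a) = -a
      simp
    have h1 : PowerSeries.coeff 1 (X a).1 = 1 := by
      change PowerSeries.coeff 1 (PowerSeries.X - PowerSeries.C a) = 1
      rw [map_sub, PowerSeries.coeff_one_X, PowerSeries.coeff_C, if_neg one_ne_zero, sub_zero]
    rw [Finset.sum_range_succ, Finset.sum_range_one, h0, h1]
    ring
  have hevC : ∀ (a : 𝕜) (x : ball 𝕜 r), ev r ⟨_, C_mem a⟩ x = a := by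
    intro a x
    rw [ev_poly ⟨_, C_mem a⟩ 1 (fun n hn => by
      change PowerSeries.coeff n (PowerSeries.C a) = 0
      rw [PowerSeries.coeff_C, if_neg (by omega)])]
    rw [Finset.sum_range_one]
    simp
  have h1 := part2 K hK hℓ κ hκ F (convRing 𝕜 r) 𝕜 S hS X τ (fun a _ => by
      refine (tau_injective (hmem (c a) (c a).2) (ev (𝕜 := 𝕜) r).range
        (hR (c a) (c a).2)).comp ?_
      intro P Q hPQ
      exact hinj (congrArg Subtype.val hPQ))
    (fun a ha => by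
      have hca : (fun x : ball 𝕜 r => x.1 0 - (fun _ => (c a : 𝕜) : Fin 1 → 𝕜) 0) ∈
          (ev (𝕜 := 𝕜) r).range := ⟨X a, by
        ext x
        rw [hevX, hc a ha]⟩
      have h2 := tau_X (hmem (c a) (c a).2) (ev (𝕜 := 𝕜) r).range (hR (c a) (c a).2) hca
      rw [← h2]
      change τ' (c a) ((ev (𝕜 := 𝕜) r).rangeRestrict (X a)) = _
      congr 1
      refine Subtype.ext ?_
      ext x
      change ev r (X a) x = x.1 0 - (c a : 𝕜)
      rw [hevX, hc a ha])
    (by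
      intro a ha b hb hab
      have h2 : PowerSeries.constantCoeff (τ a (X b)) =
          MvPolynomial.coeff 0
            (MvPolynomial.X (0 : Fin 1) + MvPolynomial.C ((c a : 𝕜) - b)) := by
        refine tau_const (hmem (c a) (c a).2) (ev (𝕜 := 𝕜) r).range (hR (c a) (c a).2)
          (MvPolynomial.X 0 + MvPolynomial.C ((c a : 𝕜) - b)) ((ev (𝕜 := 𝕜) r).rangeRestrict (X b)) ?_
        intro y h
        change ev r (X b) ⟨_, h⟩ = _
        rw [hevX]
        simp only [map_add, MvPolynomial.eval_X, MvPolynomial.eval_C, Pi.add_apply]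
        ring
      rw [h2, MvPolynomial.coeff_add, MvPolynomial.coeff_zero_X, zero_add,
        MvPolynomial.coeff_zero_C, hc a ha, sub_ne_zero]
      exact hab)
  refine h1.1 ?_
  intro a ha z
  refine ⟨⟨_, C_mem z⟩, ?_⟩
  have h2 : PowerSeries.constantCoeff (τ a ⟨_, C_mem z⟩) =
      MvPolynomial.coeff 0 (MvPolynomial.C z : MvPolynomial (Fin 1) 𝕜) := by
    refine tau_const (hmem (c a) (c a).2) (ev (𝕜 := 𝕜) r).range (hR (c a) (c a).2)
      (MvPolynomial.C z) ((ev (𝕜 := 𝕜) r).rangeRestrict ⟨_, C_mem z⟩) ?_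
    intro y h
    change ev r ⟨_, C_mem z⟩ ⟨_, h⟩ = _
    rw [hevC, MvPolynomial.eval_C]
  rw [h2, MvPolynomial.coeff_zero_C]

/-- the `p`-adic numbers -/
theorem sepExtAll_padic (p : ℕ) [Fact p.Prime] {ℓ : ℕ} (hℓ : ℓ.Prime) : SepExtAll ℚ_[p] ℓ :=
  sepExtAll_of_frac ℤ_[p] ℚ_[p] (IsDiscreteValuationRing.not_isField ℤ_[p]) hℓ.two_le

end Pool.Agent.J4.H99.OV
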