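import Pool.Agent.J4.H99.OV.Point

/-!
# Rings of functions of one variable
-/

set_option autoImplicit false

namespace Pool.Agent.J4.H99.OV

open NNReal Pool.Agent.W882.Nip3 Pool.Agent.R614.PT Pool.Agent.J4.H30.NF

section

variable {𝕜 : Type} [NontriviallyNormedField 𝕜]

/-- one variable -/
noncomputable def toPS (𝕜 : Type) [Field 𝕜] : MvPowerSeries (Fin 1) 𝕜 →+* PowerSeries 𝕜 :=
  (MvPowerSeries.renameEquiv 𝕜 (Equiv.ofUnique (Fin 1) Unit)).toRingEquiv.toRingHom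

theorem toPS_injective : Function.Injective (toPS 𝕜) :=
  (MvPowerSeries.renameEquiv 𝕜 (Equiv.ofUnique (Fin 1) Unit)).injective

theorem toPS_X : toPS 𝕜 (MvPowerSeries.X 0) = PowerSeries.X := by
  change MvPowerSeries.rename _ (MvPowerSeries.X 0) = MvPowerSeries.X ()
  rw [MvPowerSeries.rename_X]

theorem toPS_const (p : MvPowerSeries (Fin 1) 𝕜) :
    PowerSeries.constantCoeff (toPS 𝕜 p) = MvPowerSeries.constantCoeff p := by
  change MvPowerSeries.constantCoeff (MvPowerSeries.rename _ p) = _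
  rw [MvPowerSeries.constantCoeff_rename]

variable {D : Set (Fin 1 → 𝕜)} {a : Fin 1 → 𝕜}

/-- the homomorphism to the ring of power series in one variable -/
noncomputable def tau (ha : a ∈ interior D) (R : Subring (D → 𝕜))
    (hR : ∀ f ∈ R, ∃ p, HasTaylor f a p ∧ (f ≠ 0 → p ≠ 0)) : R →+* PowerSeries 𝕜 :=
  (toPS 𝕜).comp (taylorHom ha R fun f hf => (hR f hf).imp fun _ hp => hp.1)

theorem tau_injective (ha : a ∈ interior D) (R : Subring (D → 𝕜))
    (hR : ∀ f ∈ R, ∃ p, HasTaylor f a p ∧ (f ≠ 0 → p ≠ 0)) :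
    Function.Injective (tau ha R hR) := by
  rw [injective_iff_map_eq_zero]
  intro f hf
  have h1 : taylorHom ha R (fun f hf => (hR f hf).imp fun _ hp => hp.1) f = 0 := by
    apply toPS_injective
    rw [map_zero]
    exact hf
  by_contra h0
  obtain ⟨p, hp, hp0⟩ := hR f.1 f.2
  apply hp0 (fun h => h0 (Subtype.ext h))
  rw [hp.unique ha (taylorHom_spec ha R (fun f hf => (hR f hf).imp fun _ hp => hp.1) f), h1]

theorem tau_X (ha : a ∈ interior D) (R : Subring (D → 𝕜))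
    (hR : ∀ f ∈ R, ∃ p, HasTaylor f a p ∧ (f ≠ 0 → p ≠ 0))
    (h : (fun x : D => x.1 0 - a 0) ∈ R) : tau ha R hR ⟨_, h⟩ = PowerSeries.X := by
  rw [← toPS_X, tau, RingHom.comp_apply]
  congr 1
  exact (taylorHom_spec ha R _ ⟨_, h⟩).unique ha (hasTaylor_coord 0)

theorem tau_const (ha : a ∈ interior D) (R : Subring (D → 𝕜))
    (hR : ∀ f ∈ R, ∃ p, HasTaylor f a p ∧ (f ≠ 0 → p ≠ 0)) (P : MvPolynomial (Fin 1) 𝕜)
    (f : R) (hf : ∀ y, ∀ h : a + y ∈ D, f.1 ⟨a + y, h⟩ = MvPolynomial.eval y P) :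
    PowerSeries.constantCoeff (tau ha R hR f) = MvPolynomial.coeff 0 P := by
  rw [tau, RingHom.comp_apply, toPS_const,
    (taylorHom_spec ha R _ f).unique ha (hasTaylor_poly f.1 P hf),
    ← MvPowerSeries.coeff_zero_eq_constantCoeff_apply, MvPolynomial.coeff_coe]

end

/-- rings of functions with Taylor expansions at infinitely many points -/
theorem part3 (K : Type) [Field K] [FirstOrder.Ring.CompatibleRing K]
    (hK : NIPField K ∨ (∃ n, NIPnField n K) ∨ NTP2Field K) {ℓ : ℕ} (hℓ : ℓ.Prime)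
    (κ : Type) [Field κ] (hκ : IsResidue K κ) (F : Type) [Field F] [Algebra F κ]
    [Algebra.IsAlgebraic F κ] (𝕜 : Type) [NontriviallyNormedField 𝕜] (D : Set (Fin 1 → 𝕜))
    (R : Subring (D → 𝕜)) [Algebra R F] [IsFractionRing R F] (S : Set 𝕜) (hS : S.Infinite)
    (hSD : ∀ a ∈ S, (fun _ => a) ∈ interior D)
    (hR : ∀ a ∈ S, ∀ f ∈ R, ∃ p, HasTaylor f (fun _ => a) p ∧ (f ≠ 0 → p ≠ 0))
    (hx : ∀ a ∈ S, (fun x : D => x.1 0 - a) ∈ R) :
    ((∀ c : 𝕜, (fun _ => c) ∈ R) →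
      (SepExtAll 𝕜 ℓ → ¬ BoundedPart ℓ F κ) ∧ (SepExt 𝕜 ℓ → ¬ PrimeToDegrees ℓ F κ)) ∧
    (Nonempty (𝕜 →+* ℝ) → ℓ = 2 → ¬ PrimeToDegrees ℓ F κ) := by
  classical
  have hne : Nonempty S := by
    obtain ⟨a, ha⟩ := hS.nonempty
    exact ⟨⟨a, ha⟩⟩
  let a₀ : S := Classical.choice hne
  let c : 𝕜 → S := fun a => if h : a ∈ S then ⟨a, h⟩ else a₀
  have hc : ∀ a ∈ S, c a = a := fun a ha => by
    simp only [c, dif_pos ha]
  have hc' : ∀ a : S, c a = a := fun a => Subtype.ext (hc a a.2)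
  let X : 𝕜 → R := fun a => ⟨_, hx (c a) (c a).2⟩
  let τ : 𝕜 → R →+* PowerSeries 𝕜 := fun a => tau (hSD (c a) (c a).2) R (hR (c a) (c a).2)
  have h1 := part2 K hK hℓ κ hκ F R 𝕜 S hS X τ (fun a _ => tau_injective _ _ _)
    (fun a _ => tau_X (hSD (c a) (c a).2) R (hR (c a) (c a).2) (hx (c a) (c a).2))
    (by
      intro a ha b hb hab
      have h2 : PowerSeries.constantCoeff (τ a (X b)) =
          MvPolynomial.coeff 0
            (MvPolynomial.X (0 : Fin 1) + MvPolynomial.C ((c a : 𝕜) - c b)) := by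
        refine tau_const (hSD (c a) (c a).2) R (hR (c a) (c a).2)
          (MvPolynomial.X 0 + MvPolynomial.C ((c a : 𝕜) - c b)) (X b) ?_
        intro y h
        simp only [X, map_add, MvPolynomial.eval_X, MvPolynomial.eval_C, Pi.add_apply]
        ring
      rw [h2, MvPolynomial.coeff_add, MvPolynomial.coeff_zero_X, zero_add,
        MvPolynomial.coeff_zero_C, hc a ha, hc b hb, sub_ne_zero]
      exact hab)
  refine ⟨fun hcst => h1.1 ?_, h1.2⟩
  intro a ha z
  refine ⟨⟨_, hcst z⟩, ?_⟩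
  have h2 : PowerSeries.constantCoeff (τ a ⟨_, hcst z⟩) =
      MvPolynomial.coeff 0 (MvPolynomial.C z : MvPolynomial (Fin 1) 𝕜) := by
    refine tau_const (hSD (c a) (c a).2) R (hR (c a) (c a).2) (MvPolynomial.C z) ⟨_, hcst z⟩ ?_
    intro y h
    simp only [MvPolynomial.eval_C]
  rw [h2, MvPolynomial.coeff_zero_C]

/-- analytic functions on an open interval -/
theorem part_real (K : Type) [Field K] [FirstOrder.Ring.CompatibleRing K]
    (hK : NIPField K ∨ (∃ n, NIPnField n K) ∨ NTP2Field K)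
    (κ : Type) [Field κ] (hκ : IsResidue K κ) (F : Type) [Field F] [Algebra F κ]
    [Algebra.IsAlgebraic F κ] (D : Set (Fin 1 → ℝ)) [Algebra (analyticRing ℝ D) F]
    [IsFractionRing (analyticRing ℝ D) F] (hop : IsOpen D) (hcon : IsPreconnected D)
    (hne : D.Nonempty) : ¬ PrimeToDegrees 2 F κ := by
  have hS : {a : ℝ | (fun _ => a : Fin 1 → ℝ) ∈ D}.Infinite := by
    obtain ⟨a, ha⟩ := hne
    have h1 : Continuous fun t : ℝ => (fun _ => t : Fin 1 → ℝ) :=
      continuous_pi fun _ => continuous_id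
    have h2 : {a : ℝ | (fun _ => a : Fin 1 → ℝ) ∈ D} ∈ nhds (a 0) := by
      refine (hop.preimage h1).mem_nhds ?_
      have h3 : (fun _ => a 0 : Fin 1 → ℝ) = a := by
        ext i
        rw [Subsingleton.elim i 0]
      change (fun _ => a 0 : Fin 1 → ℝ) ∈ D
      rwa [h3]
    exact infinite_of_mem_nhds _ h2
  refine (part3 K hK Nat.prime_two κ hκ F ℝ D (analyticRing ℝ D) _ hS ?_ ?_ ?_).2
    ⟨RingHom.id ℝ⟩ rfl
  · intro a ha
    rw [hop.interior_eq]
    exact ha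
  · intro a ha f hf
    exact analyticRing_taylor hcon _ ha f hf
  · intro a _
    exact coord_mem D (fun _ => a) 0

end Pool.Agent.J4.H99.OV
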