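import Pool.Agent.J4.H99.OV.Basic
import Pool.Agent.J4.H30.NF.Analytic

/-!
# Rings with many homomorphisms to rings of power series in one variable
-/

set_option autoImplicit false

namespace Pool.Agent.J4.H99.OV

open IsLocalRing NNReal Pool.Agent.W882.Nip3 Pool.Agent.R614.PT Pool.Agent.J4.H30.NF

section

variable {R F 𝕜 : Type} [CommRing R] [Field F] [Algebra R F] [IsFractionRing R F] [Field 𝕜]

/-- the extension to the field of fractions -/
noncomputable def emb (F : Type) [Field F] [Algebra R F] [IsFractionRing R F]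
    (τ : R →+* PowerSeries 𝕜) (hτ : Function.Injective τ) :
    F →+* FractionRing (PowerSeries 𝕜) :=
  IsFractionRing.lift (A := R) (K := F) (g := (algebraMap (PowerSeries 𝕜)
    (FractionRing (PowerSeries 𝕜))).comp τ)
    ((IsFractionRing.injective (PowerSeries 𝕜) (FractionRing (PowerSeries 𝕜))).comp hτ)

theorem emb_algebraMap (τ : R →+* PowerSeries 𝕜) (hτ : Function.Injective τ) (f : R) :
    emb F τ hτ (algebraMap R F f) = algebraMap (PowerSeries 𝕜) _ (τ f) := by
  rw [emb, IsFractionRing.lift_algebraMap]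
  rfl

/-- the valuation ring -/
noncomputable abbrev vring (F : Type) [Field F] [Algebra R F] [IsFractionRing R F]
    (τ : R →+* PowerSeries 𝕜) (hτ : Function.Injective τ) : ValuationSubring F :=
  comapV (PowerSeries 𝕜) (emb F τ hτ)

theorem vring_dvr (τ : R →+* PowerSeries 𝕜) (hτ : Function.Injective τ) (x : R)
    (hx : τ x = PowerSeries.X) : IsDiscreteValuationRing (vring F τ hτ) := by
  refine isDVR (A := PowerSeries 𝕜) (emb F τ hτ) (algebraMap R F x) PowerSeries.X ?_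
    PowerSeries.X_ne_zero ?_
  · rw [emb_algebraMap, hx]
  · rw [PowerSeries.isUnit_iff_constantCoeff, PowerSeries.constantCoeff_X]
    exact not_isUnit_zero

theorem vring_lt (τ : R →+* PowerSeries 𝕜) (hτ : Function.Injective τ) (f : R) :
    (vring F τ hτ).valuation (algebraMap R F f) < 1 ↔ PowerSeries.constantCoeff (τ f) = 0 := by
  rw [valuation_lt_one_iff (A := PowerSeries 𝕜) (emb F τ hτ) (algebraMap R F f) (τ f)
    (emb_algebraMap τ hτ f), PowerSeries.isUnit_iff_constantCoeff, isUnit_iff_ne_zero, not_not]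

theorem vring_le (τ : R →+* PowerSeries 𝕜) (hτ : Function.Injective τ) (f : R) :
    (vring F τ hτ).valuation (algebraMap R F f) ≤ 1 := by
  rw [ValuationSubring.valuation_le_one_iff, mem_comapV]
  exact ⟨τ f, (emb_algebraMap τ hτ f).symm⟩

theorem vring_inc (τ τ' : R →+* PowerSeries 𝕜) (hτ : Function.Injective τ)
    (hτ' : Function.Injective τ') (x y : R)
    (h1 : PowerSeries.constantCoeff (τ x) = 0) (h2 : PowerSeries.constantCoeff (τ y) ≠ 0)
    (h3 : PowerSeries.constantCoeff (τ' x) ≠ 0) (h4 : PowerSeries.constantCoeff (τ' y) = 0)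
    (hy0 : y ≠ 0) :
    ∃ z, (vring F τ hτ).valuation z < 1 ∧ 1 < (vring F τ' hτ').valuation z := by
  have hy : algebraMap R F y ≠ 0 := by
    intro h
    exact hy0 ((IsFractionRing.injective R F) (by rw [h, map_zero]))
  have h1' := (vring_lt (F := F) τ hτ x).2 h1
  have h2' : (vring F τ hτ).valuation (algebraMap R F y) = 1 :=
    le_antisymm (vring_le τ hτ y) (not_lt.1 fun h => h2 ((vring_lt (F := F) τ hτ y).1 h))
  have h3' : (vring F τ' hτ').valuation (algebraMap R F x) = 1 :=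
    le_antisymm (vring_le τ' hτ' x) (not_lt.1 fun h => h3 ((vring_lt (F := F) τ' hτ' x).1 h))
  have h4' := (vring_lt (F := F) τ' hτ' y).2 h4
  refine ⟨algebraMap R F x / algebraMap R F y, ?_, ?_⟩
  · rw [map_div₀, h2', div_one]
    exact h1'
  · rw [map_div₀, h3', one_div]
    refine (one_lt_inv₀ ?_).2 h4'
    exact pos_iff_ne_zero.2 ((Valuation.ne_zero_iff _).2 hy)

/-- the embedding of the residue field -/
theorem exists_res (τ : R →+* PowerSeries 𝕜) (hτ : Function.Injective τ) :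
    ∃ e : ResidueField (vring F τ hτ) →+* 𝕜,
      ((∀ c : 𝕜, ∃ f : R, PowerSeries.constantCoeff (τ f) = c) → Function.Surjective e) := by
  let ρ : vring F τ hτ →+* 𝕜 := (PowerSeries.constantCoeff (R := 𝕜)).comp
    (toA (PowerSeries 𝕜) (emb F τ hτ))
  have hρ : IsLocalHom ρ := by
    refine ⟨fun x hx => ?_⟩
    rw [← isUnit_toA (A := PowerSeries 𝕜)]
    exact PowerSeries.isUnit_iff_constantCoeff.2 hx
  refine ⟨IsLocalRing.ResidueField.lift ρ, fun hc c => ?_⟩
  obtain ⟨f, hf⟩ := hc c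
  have hm : algebraMap R F f ∈ vring F τ hτ := by
    rw [mem_comapV]
    exact ⟨τ f, (emb_algebraMap τ hτ f).symm⟩
  refine ⟨IsLocalRing.residue _ ⟨_, hm⟩, ?_⟩
  rw [IsLocalRing.ResidueField.lift_residue_apply]
  change PowerSeries.constantCoeff (toA (PowerSeries 𝕜) (emb F τ hτ) ⟨_, hm⟩) = c
  rw [toA_eq (A := PowerSeries 𝕜) (emb F τ hτ) ⟨_, hm⟩ (τ f) (emb_algebraMap τ hτ f).symm, hf]

end

/-- fields of fractions of rings with infinitely many homomorphisms to a ring of power series -/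
theorem part2 (K : Type) [Field K] [FirstOrder.Ring.CompatibleRing K]
    (hK : NIPField K ∨ (∃ n, NIPnField n K) ∨ NTP2Field K) {ℓ : ℕ} (hℓ : ℓ.Prime)
    (κ : Type) [Field κ] (hκ : IsResidue K κ) (F : Type) [Field F] [Algebra F κ]
    [Algebra.IsAlgebraic F κ] (R 𝕜 : Type) [CommRing R] [Algebra R F] [IsFractionRing R F]
    [Field 𝕜] (S : Set 𝕜) (hS : S.Infinite) (X : 𝕜 → R) (τ : 𝕜 → R →+* PowerSeries 𝕜)
    (hτ : ∀ a ∈ S, Function.Injective (τ a))
    (hX : ∀ a ∈ S, τ a (X a) = PowerSeries.X)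
    (hX' : ∀ a ∈ S, ∀ b ∈ S, a ≠ b → PowerSeries.constantCoeff (τ a (X b)) ≠ 0) :
    ((∀ a ∈ S, ∀ c : 𝕜, ∃ f : R, PowerSeries.constantCoeff (τ a f) = c) →
      (SepExtAll 𝕜 ℓ → ¬ BoundedPart ℓ F κ) ∧ (SepExt 𝕜 ℓ → ¬ PrimeToDegrees ℓ F κ)) ∧
    (Nonempty (𝕜 →+* ℝ) → ℓ = 2 → ¬ PrimeToDegrees ℓ F κ) := by
  let s : ℕ ↪ S := hS.natEmbedding
  let V : ℕ → ValuationSubring F := fun i => vring F (τ (s i)) (hτ _ (s i).2)
  have hV : ∀ i, IsDiscreteValuationRing (V i) := fun i => vring_dvr _ _ (X (s i)) (hX _ (s i).2)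
  have hne : ∀ i j, i ≠ j → (s i : 𝕜) ≠ s j := fun i j hij h => hij (s.injective (Subtype.ext h))
  have hinc : Pairwise fun i j => ∃ x, (V i).valuation x < 1 ∧ 1 < (V j).valuation x := by
    intro i j hij
    refine vring_inc _ _ _ _ (X (s i)) (X (s j)) ?_ (hX' _ (s i).2 _ (s j).2 (hne i j hij))
      (hX' _ (s j).2 _ (s i).2 (hne j i hij.symm)) ?_ ?_
    · rw [hX _ (s i).2, PowerSeries.constantCoeff_X]
    · rw [hX _ (s j).2, PowerSeries.constantCoeff_X]
    · intro h
      have h1 := hX _ (s j).2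
      rw [h, map_zero] at h1
      exact PowerSeries.X_ne_zero h1.symm
  have h1 := part1' K hK hℓ κ hκ F V hV hinc
  refine ⟨fun hc => ⟨fun h => h1.1 fun i => ?_, fun h => h1.2 fun i => ?_⟩, ?_⟩
  · obtain ⟨e, he⟩ := exists_res (F := F) (τ (s i)) (hτ _ (s i).2)
    exact sepExtAll_of_bijective e (he (hc _ (s i).2)) h
  · obtain ⟨e, he⟩ := exists_res (F := F) (τ (s i)) (hτ _ (s i).2)
    exact sepExt_of_bijective e (he (hc _ (s i).2)) h
  · rintro ⟨g⟩ rfl
    refine h1.2 fun i => ?_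
    obtain ⟨e, -⟩ := exists_res (F := F) (τ (s i)) (hτ _ (s i).2)
    exact sepExt_two_of_real (g.comp e)

end Pool.Agent.J4.H99.OV
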